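import Pool.Agent.Run7.h950.AX.LPP

/-!
# Project AX, piece GRD: a test field with vanishing Leray projection is a gradient
-/

set_option autoImplicit false

open MeasureTheory Set Filter Topology
open scoped ENNReal ContDiff FourierTransform

namespace Pool.Agent.Run7.h950.AX

open Pool.Agent.Run7.h148.AX

theorem integrable_of_moments {a : E3 → ℂ} (hm : Measurable a)
    (h : ∀ k : ℕ, (∫⁻ ξ, wk k ξ * ‖a ξ‖ₑ) < ⊤) : Integrable a := by
  refine ⟨hm.aestronglyMeasurable, ?_⟩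
  have h0 := h 0
  have e : ∀ ξ, wk 0 ξ = 1 := fun ξ => by unfold wk; simp
  simp only [e, one_mul] at h0
  exact h0

theorem comp_moments {a : E3 → C3} (h : ∀ k : ℕ, (∫⁻ ξ, wk k ξ * ‖a ξ‖ₑ) < ⊤) (j : Fin 3)
    (k : ℕ) : (∫⁻ ξ, wk k ξ * ‖a ξ j‖ₑ) < ⊤ := by
  refine lt_of_le_of_lt ?_ (h k)
  apply lintegral_mono
  intro ξ
  show wk k ξ * ‖a ξ j‖ₑ ≤ wk k ξ * ‖a ξ‖ₑ
  gcongr
  rw [← ofReal_norm, ← ofReal_norm]
  exact ENNReal.ofReal_le_ofReal (norm_le_pi_norm (a ξ) j)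

theorem fourierInv_sub' {f g : E3 → ℂ} (hf : Integrable f) (hg : Integrable g) (x : E3) :
    𝓕⁻ (fun ξ => f ξ - g ξ) x = 𝓕⁻ f x - 𝓕⁻ g x := by
  rw [Real.fourierInv_eq, Real.fourierInv_eq, Real.fourierInv_eq]
  rw [← integral_sub]
  · apply integral_congr_ae
    refine Eventually.of_forall fun v => ?_
    show _ • (f v - g v) = _
    rw [smul_sub]
  · have := (Real.fourierIntegral_convergent_iff (-x)).2 hf
    simpa using this
  · have := (Real.fourierIntegral_convergent_iff (-x)).2 hg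
    simpa using this

/-- the Fourier transform of the potential -/
noncomputable def bb (φ : E3 → E3) (ξ : E3) : ℂ :=
  dt ξ (fth φ ξ) / (2 * Real.pi * Complex.I * ((‖ξ‖ ^ 2 : ℝ) : ℂ))

theorem bb_meas {φ : E3 → E3} (h : Measurable (fth φ)) : Measurable (bb φ) := by
  have hc : ∀ j, Measurable fun ξ : E3 => (ξ j : ℂ) := fun j =>
    Complex.measurable_ofReal.comp (by fun_prop)
  have hk : ∀ j, Measurable fun ξ => fth φ ξ j := fun j => (measurable_pi_apply j).comp h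
  have hd : Measurable fun ξ => dt ξ (fth φ ξ) := by
    unfold dt
    exact Finset.measurable_sum _ fun j _ => (hc j).mul (hk j)
  have hn : Measurable fun ξ : E3 => ((‖ξ‖ ^ 2 : ℝ) : ℂ) :=
    Complex.measurable_ofReal.comp (by fun_prop)
  exact hd.div (measurable_const.mul hn)

theorem bb_le (φ : E3 → E3) (ξ : E3) : ‖bb φ ξ‖ₑ ≤ iw ξ * ‖fth φ ξ‖ₑ := by
  unfold iw
  rw [← ofReal_norm, ← ofReal_norm (fth φ ξ), ← ENNReal.ofReal_mul (by positivity)]
  apply ENNReal.ofReal_le_ofReal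
  by_cases hξ : ξ = 0
  · subst hξ
    unfold bb dt
    simp
  · have hn : 0 < ‖ξ‖ := norm_pos_iff.2 hξ
    unfold bb
    rw [norm_div, norm_mul, norm_mul, norm_mul, Complex.norm_real, Complex.norm_real, Complex.norm_I,
      Complex.norm_two, Real.norm_of_nonneg (by positivity : (0 : ℝ) ≤ ‖ξ‖ ^ 2),
      Real.norm_of_nonneg Real.pi_pos.le, div_le_iff₀ (by positivity)]
    have h1 := norm_dt_le ξ (fth φ ξ)
    have h2 : ‖ξ‖⁻¹ * ‖fth φ ξ‖ * (2 * Real.pi * 1 * ‖ξ‖ ^ 2) = 2 * Real.pi * (‖ξ‖ * ‖fth φ ξ‖) := by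
      field_simp
    rw [h2]
    have h3 : 0 ≤ ‖ξ‖ * ‖fth φ ξ‖ := by positivity
    nlinarith [Real.pi_gt_three]

theorem bb_moments (hIWI : S_IWI) {φ : E3 → E3}
    (h : ∀ k : ℕ, ∃ M : NNReal, (∫⁻ ξ, wk k ξ * ‖fth φ ξ‖ₑ) ≤ M ∧ ∀ ξ, wk k ξ * ‖fth φ ξ‖ₑ ≤ M)
    (k : ℕ) : (∫⁻ ξ, wk k ξ * ‖bb φ ξ‖ₑ) < ⊤ := by
  obtain ⟨M, hM1, hM2⟩ := h k
  have hpt : ∀ ξ, wk k ξ * ‖bb φ ξ‖ₑ ≤
      (Metric.ball (0 : E3) 1).indicator (fun ξ => iw ξ * M) ξ + wk k ξ * ‖fth φ ξ‖ₑ := by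
    intro ξ
    have h1 : wk k ξ * ‖bb φ ξ‖ₑ ≤ iw ξ * (wk k ξ * ‖fth φ ξ‖ₑ) := by
      calc wk k ξ * ‖bb φ ξ‖ₑ ≤ wk k ξ * (iw ξ * ‖fth φ ξ‖ₑ) := by gcongr; exact bb_le φ ξ
        _ = _ := by ring
    by_cases hξ : ξ ∈ Metric.ball (0 : E3) 1
    · rw [indicator_of_mem hξ]
      refine h1.trans (le_trans ?_ le_self_add)
      gcongr
      exact hM2 ξ
    · rw [indicator_of_notMem hξ, zero_add]
      refine h1.trans ?_
      have h2 : iw ξ ≤ 1 := by
        unfold iw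
        rw [Metric.mem_ball, dist_zero_right, not_lt] at hξ
        exact ENNReal.ofReal_le_one.2 (inv_le_one_of_one_le₀ hξ)
      calc iw ξ * (wk k ξ * ‖fth φ ξ‖ₑ) ≤ 1 * (wk k ξ * ‖fth φ ξ‖ₑ) := by gcongr
        _ = _ := one_mul _
  refine (lintegral_mono hpt).trans_lt ?_
  have hm : Measurable fun ξ : E3 => iw ξ * (M : ℝ≥0∞) := by
    unfold iw
    fun_prop
  rw [lintegral_add_left (hm.indicator measurableSet_ball), lintegral_indicator measurableSet_ball,
    lintegral_mul_const' _ _ ENNReal.coe_ne_top]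
  exact ENNReal.add_lt_top.2 ⟨ENNReal.mul_lt_top hIWI ENNReal.coe_lt_top,
    hM1.trans_lt ENNReal.coe_lt_top⟩

theorem t_GRD : S_FTF → S_FI1 → S_FI3 → S_IWI → S_GRD := by
  intro hFTF hFI1 hFI3 hIWI φ hφ hLP
  obtain ⟨h1, h2, h3, -, -, h6, -⟩ := hFTF.1 φ hφ.1 hφ.2
  have h2' : ∀ k : ℕ, (∫⁻ ξ, wk k ξ * ‖fth φ ξ‖ₑ) < ⊤ := fun k => by
    obtain ⟨M, hM, -⟩ := h2 k
    exact hM.trans_lt ENNReal.coe_lt_top
  obtain ⟨g1, -, -, -⟩ := hFI3 (fun ξ => Pool.Agent.Run7.h148.AX.lp ξ (fth φ ξ))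
    (measurable_lp h1) (lp_moments h2')
  have g1 := g1 (herm_lp h3)
  obtain ⟨f1, f2⟩ := hFI1.1 (bb φ) (bb_meas h1) (bb_moments hIWI h2)
  set q : E3 → ℝ := fun x => (𝓕⁻ (bb φ) x).re with hq
  have hqs : ContDiff ℝ ∞ q := Complex.reCLM.contDiff.comp f1
  have hdiff : Differentiable ℝ (𝓕⁻ (bb φ)) := f1.differentiable (by simp)
  have hpd : ∀ x j, φ x j = pd j q x := by
    intro x j
    have e1 : fderiv ℝ q x = Complex.reCLM.comp (fderiv ℝ (𝓕⁻ (bb φ)) x) := by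
      have := (Complex.reCLM.hasFDerivAt (x := 𝓕⁻ (bb φ) x)).comp x (hdiff x).hasFDerivAt
      exact this.fderiv
    have e2 : pd j q x = (fderiv ℝ (𝓕⁻ (bb φ)) x (EuclideanSpace.single j 1)).re := by
      unfold pd
      rw [e1]
      rfl
    have e3 : (fun ξ : E3 => 2 * Real.pi * Complex.I * (ξ j : ℂ) * bb φ ξ) =
        fun ξ => fth φ ξ j - Pool.Agent.Run7.h148.AX.lp ξ (fth φ ξ) j := by
      funext ξ
      unfold bb Pool.Agent.Run7.h148.AX.lp
      have hpi : (2 * Real.pi * Complex.I : ℂ) ≠ 0 := by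
        simp [Real.pi_ne_zero]
      by_cases hξ : ξ = 0
      · subst hξ
        simp
      · have hn : ((‖ξ‖ ^ 2 : ℝ) : ℂ) ≠ 0 := by
          have : 0 < ‖ξ‖ := norm_pos_iff.2 hξ
          exact_mod_cast (by positivity : (‖ξ‖ ^ 2 : ℝ) ≠ 0)
        rw [sub_sub_cancel]
        field_simp
    have i1 : Integrable fun ξ => fth φ ξ j :=
      integrable_of_moments ((measurable_pi_apply j).comp h1) (comp_moments h2' j)
    have i2 : Integrable fun ξ => Pool.Agent.Run7.h148.AX.lp ξ (fth φ ξ) j :=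
      integrable_of_moments ((measurable_pi_apply j).comp (measurable_lp h1))
        (comp_moments (a := fun ξ => Pool.Agent.Run7.h148.AX.lp ξ (fth φ ξ)) (lp_moments h2') j)
    rw [e2, f2 j x, e3, fourierInv_sub' i1 i2, h6 x j, ← g1 x j]
    have e4 : phy (fun ξ => Pool.Agent.Run7.h148.AX.lp ξ (fth φ ξ)) x = 0 := by
      have : LP φ x = 0 := by rw [hLP]; rfl
      exact this
    rw [e4]
    simp
  refine ⟨q, ⟨hqs, ?_⟩, hpd⟩
  -- the support
  obtain ⟨R, hR0, hR⟩ := hφ.2.exists_pos_le_norm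
  apply HasCompactSupport.intro (isCompact_closedBall (0 : E3) R)
  intro x hx
  have hxR : R < ‖x‖ := by
    rw [Metric.mem_closedBall, dist_zero_right, not_le] at hx
    exact hx
  have hx0 : x ≠ 0 := by
    intro h
    rw [h, norm_zero] at hxR
    linarith
  have hqd : Differentiable ℝ q := hqs.differentiable (by simp)
  have hder : ∀ y : E3, R ≤ ‖y‖ → fderiv ℝ q y = 0 := by
    intro y hy
    have hφy : φ y = 0 := hR y hy
    ext v
    have hv : v = ∑ j, v j • EuclideanSpace.single j (1 : ℝ) := by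
      ext i
      simp [Fin.sum_univ_three]
      fin_cases i <;> simp
    rw [hv, map_sum]
    simp only [map_smul]
    have : ∀ j, fderiv ℝ q y (EuclideanSpace.single j 1) = 0 := by
      intro j
      have := hpd y j
      rw [hφy] at this
      exact this.symm
    simp [this]
  have hconst : ∀ s : ℝ, 1 ≤ s → q (s • x) = q x := by
    intro s hs
    have h5 : ∀ t ∈ Ico (1 : ℝ) s, HasDerivWithinAt (fun t : ℝ => q (t • x)) 0 (Ici t) t := by
      intro t ht
      have h6 : HasFDerivAt q (fderiv ℝ q (t • x)) (t • x) := (hqd _).hasFDerivAt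
      rw [hder (t • x) (by
        rw [norm_smul, Real.norm_of_nonneg (by linarith [ht.1])]
        nlinarith [ht.1, norm_nonneg x])] at h6
      have h7 : HasDerivAt (fun t : ℝ => t • x) ((1 : ℝ) • x) t := (hasDerivAt_id t).smul_const x
      have h8 := h6.comp_hasDerivAt t h7
      rw [ContinuousLinearMap.zero_apply] at h8
      exact h8.hasDerivWithinAt
    have h9 : ContinuousOn (fun t : ℝ => q (t • x)) (Icc 1 s) :=
      (hqs.continuous.comp (by fun_prop)).continuousOn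
    have := constant_of_has_deriv_right_zero h9 h5 s ⟨hs, le_rfl⟩
    simpa using this
  have hlim : Tendsto q (cocompact E3) (𝓝 0) :=
    (Complex.continuous_re.tendsto 0).comp (fourierInv_zero (bb φ))
  have hlim2 : Tendsto (fun s : ℝ => s • x) atTop (cocompact E3) := by
    rw [← Metric.cobounded_eq_cocompact, ← tendsto_norm_atTop_iff_cobounded]
    have : (fun s : ℝ => ‖s • x‖) = fun s : ℝ => |s| * ‖x‖ := by
      funext s
      rw [norm_smul, Real.norm_eq_abs]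
    rw [this]
    exact tendsto_abs_atTop_atTop.atTop_mul_const (norm_pos_iff.2 hx0)
  have hlim3 := hlim.comp hlim2
  have hlim4 : Tendsto (q ∘ fun s : ℝ => s • x) atTop (𝓝 (q x)) := by
    apply tendsto_const_nhds.congr'
    filter_upwards [eventually_ge_atTop (1 : ℝ)] with s hs
    exact (hconst s hs).symm
  exact tendsto_nhds_unique hlim4 hlim3

end Pool.Agent.Run7.h950.AX
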