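import Pool.Agent.Run7.h950.AX.Lib

/-!
# Project AX, piece LPP: the Leray projection of a test field
-/

set_option autoImplicit false

open MeasureTheory Set Filter Topology
open scoped ENNReal ContDiff FourierTransform

namespace Pool.Agent.Run7.h950.AX

open Pool.Agent.Run7.h148.AX

theorem enorm_lp_le (ξ : E3) (v : C3) : ‖Pool.Agent.Run7.h148.AX.lp ξ v‖ₑ ≤ 4 * ‖v‖ₑ := by
  have h := ENNReal.ofReal_le_ofReal (norm_lp_le ξ v)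
  rw [ENNReal.ofReal_mul (by norm_num), ofReal_norm, ofReal_norm] at h
  have h4 : ENNReal.ofReal 4 = 4 := by norm_num
  rwa [h4] at h

theorem lp_moments {a : E3 → C3} (h2 : ∀ k : ℕ, (∫⁻ ξ, wk k ξ * ‖a ξ‖ₑ) < ⊤) (k : ℕ) :
    (∫⁻ ξ, wk k ξ * ‖Pool.Agent.Run7.h148.AX.lp ξ (a ξ)‖ₑ) < ⊤ := by
  have h3 : (∫⁻ ξ, wk k ξ * ‖Pool.Agent.Run7.h148.AX.lp ξ (a ξ)‖ₑ) ≤
      ∫⁻ ξ, 4 * (wk k ξ * ‖a ξ‖ₑ) := by
    apply lintegral_mono
    intro ξ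
    calc wk k ξ * ‖Pool.Agent.Run7.h148.AX.lp ξ (a ξ)‖ₑ ≤ wk k ξ * (4 * ‖a ξ‖ₑ) := by
          gcongr
          exact enorm_lp_le ξ _
      _ = 4 * (wk k ξ * ‖a ξ‖ₑ) := by ring
  refine h3.trans_lt ?_
  rw [lintegral_const_mul' _ _ (by norm_num)]
  exact ENNReal.mul_lt_top (by norm_num) (h2 k)

theorem herm_lp {a : E3 → C3} (h : Herm a) :
    Herm fun ξ => Pool.Agent.Run7.h148.AX.lp ξ (a ξ) := by
  intro ξ k
  have e : a (-ξ) = fun j => (starRingEnd ℂ) (a ξ j) := funext fun j => h ξ j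
  show Pool.Agent.Run7.h148.AX.lp (-ξ) (a (-ξ)) k =
    (starRingEnd ℂ) (Pool.Agent.Run7.h148.AX.lp ξ (a ξ) k)
  rw [e, lp_neg, lp_conj]

theorem rot_lp {a : E3 → C3} (h : Rot a) :
    Rot fun ξ => Pool.Agent.Run7.h148.AX.lp ξ (a ξ) := by
  intro θ ξ
  show Pool.Agent.Run7.h148.AX.lp (rt θ ξ) (a (rt θ ξ)) = _
  rw [h θ ξ, lp_rt]

/-- Riemann-Lebesgue -/
theorem fourierInv_zero (f : E3 → ℂ) : Tendsto (𝓕⁻ f) (cocompact E3) (𝓝 0) := by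
  have h1 := tendsto_integral_exp_inner_smul_cocompact f
  have h2 : (𝓕⁻ f) = (fun w : E3 => ∫ v : E3, Real.fourierChar (-inner ℝ v w) • f v) ∘
      (LinearIsometryEquiv.neg ℝ : E3 ≃ₗᵢ[ℝ] E3) := by
    funext x
    rw [Real.fourierInv_eq_fourier_neg]
    rfl
  rw [h2]
  exact h1.comp
    (LinearIsometryEquiv.neg ℝ : E3 ≃ₗᵢ[ℝ] E3).toHomeomorph.toCocompactMap.cocompact_tendsto'

theorem phy_zero (a : E3 → C3) : Tendsto (phy a) (cocompact E3) (𝓝 0) := by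
  have h1 : Tendsto (fun x => fun k => (𝓕⁻ (fun ξ => a ξ k) x).re) (cocompact E3)
      (𝓝 (0 : Fin 3 → ℝ)) := by
    rw [tendsto_pi_nhds]
    intro k
    have := (Complex.continuous_re.tendsto 0).comp (fourierInv_zero fun ξ => a ξ k)
    exact this
  exact ((PiLp.continuous_toLp 2 (fun _ : Fin 3 => ℝ)).tendsto 0).comp h1

theorem t_LPP : S_FTF → S_FI3 → S_LPP := by
  intro hFTF hFI3 φ hφ
  obtain ⟨h1, h2, h3, h4, -, -, -⟩ := hFTF.1 φ hφ.1 hφ.2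
  have h2' : ∀ k : ℕ, (∫⁻ ξ, wk k ξ * ‖fth φ ξ‖ₑ) < ⊤ := fun k => by
    obtain ⟨M, hM, -⟩ := h2 k
    exact hM.trans_lt ENNReal.coe_lt_top
  obtain ⟨-, g2, g3, g4⟩ := hFI3 (fun ξ => Pool.Agent.Run7.h148.AX.lp ξ (fth φ ξ))
    (measurable_lp h1) (lp_moments h2')
  have hH := herm_lp h3
  refine ⟨g4, ?_, ?_, ?_⟩
  · exact g3 hH fun ξ => dt_lp ξ _
  · intro hax
    exact g2 hH (rot_lp (h4 hax))
  · exact phy_zero _

end Pool.Agent.Run7.h950.AX
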