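import Pool.Agent.Run7.h148.AX.Stm3

/-!
# Project AX: the Leray projection of Fourier transforms, piece IWI
-/

set_option autoImplicit false

open MeasureTheory Set Filter Topology
open scoped ENNReal ContDiff FourierTransform

namespace Pool.Agent.Run7.h950.AX

open Pool.Agent.Run7.h148.AX

theorem coord_le (ξ : E3) (j : Fin 3) : |ξ j| ≤ ‖ξ‖ := by
  have := PiLp.norm_apply_le ξ j
  rwa [Real.norm_eq_abs] at this

theorem norm_dt_le (ξ : E3) (v : C3) : ‖dt ξ v‖ ≤ 3 * ‖ξ‖ * ‖v‖ := by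
  unfold dt
  refine (norm_sum_le _ _).trans ?_
  have h : ∀ j ∈ (Finset.univ : Finset (Fin 3)), ‖(ξ j : ℂ) * v j‖ ≤ ‖ξ‖ * ‖v‖ := by
    intro j _
    rw [norm_mul, Complex.norm_real, Real.norm_eq_abs]
    exact mul_le_mul (coord_le ξ j) (norm_le_pi_norm v j) (norm_nonneg _) (norm_nonneg _)
  refine (Finset.sum_le_card_nsmul _ _ _ h).trans ?_
  rw [Finset.card_univ, Fintype.card_fin, nsmul_eq_mul]
  push_cast
  linarith

theorem norm_lp_le (ξ : E3) (v : C3) : ‖lp ξ v‖ ≤ 4 * ‖v‖ := by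
  rw [pi_norm_le_iff_of_nonneg (by positivity)]
  intro k
  unfold Pool.Agent.Run7.h148.AX.lp
  by_cases hξ : ξ = 0
  · subst hξ
    simp only [PiLp.zero_apply, Complex.ofReal_zero, zero_mul, zero_div, sub_zero]
    have := norm_le_pi_norm v k
    linarith [norm_nonneg v]
  · have hn : 0 < ‖ξ‖ := norm_pos_iff.2 hξ
    refine (norm_sub_le _ _).trans ?_
    have h1 : ‖(ξ k : ℂ) * dt ξ v / ((‖ξ‖ ^ 2 : ℝ) : ℂ)‖ ≤ 3 * ‖v‖ := by
      rw [norm_div, norm_mul, Complex.norm_real, Complex.norm_real, Real.norm_eq_abs,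
        Real.norm_of_nonneg (by positivity), div_le_iff₀ (by positivity)]
      calc |ξ k| * ‖dt ξ v‖ ≤ ‖ξ‖ * (3 * ‖ξ‖ * ‖v‖) :=
            mul_le_mul (coord_le ξ k) (norm_dt_le ξ v) (norm_nonneg _) (norm_nonneg _)
        _ = 3 * ‖v‖ * ‖ξ‖ ^ 2 := by ring
    linarith [norm_le_pi_norm v k]

theorem norm_sq_eq (ξ : E3) : ‖ξ‖ ^ 2 = ξ 0 ^ 2 + ξ 1 ^ 2 + ξ 2 ^ 2 := by
  rw [EuclideanSpace.norm_sq_eq, Fin.sum_univ_three]
  simp only [Real.norm_eq_abs, sq_abs]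

theorem dt_lp (ξ : E3) (v : C3) : dt ξ (lp ξ v) = 0 := by
  by_cases hξ : ξ = 0
  · subst hξ
    unfold dt
    simp
  · have hn : ‖ξ‖ ^ 2 ≠ 0 := by
      have : 0 < ‖ξ‖ := norm_pos_iff.2 hξ
      positivity
    have hn' : ((‖ξ‖ ^ 2 : ℝ) : ℂ) ≠ 0 := by exact_mod_cast hn
    have h1 : dt ξ (lp ξ v) = dt ξ v - ((‖ξ‖ ^ 2 : ℝ) : ℂ) * dt ξ v / ((‖ξ‖ ^ 2 : ℝ) : ℂ) := by
      have h2 : ((‖ξ‖ ^ 2 : ℝ) : ℂ) = (ξ 0 : ℂ) ^ 2 + (ξ 1 : ℂ) ^ 2 + (ξ 2 : ℂ) ^ 2 := by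
        rw [norm_sq_eq]; push_cast; ring
      have h3 : dt ξ (lp ξ v) = dt ξ v -
          ((ξ 0 : ℂ) ^ 2 + (ξ 1 : ℂ) ^ 2 + (ξ 2 : ℂ) ^ 2) * dt ξ v / ((‖ξ‖ ^ 2 : ℝ) : ℂ) := by
        generalize hd : dt ξ v = D
        unfold Pool.Agent.Run7.h148.AX.lp
        rw [hd]
        rw [← hd]
        unfold dt
        simp only [Fin.sum_univ_three]
        ring
      rw [h3, ← h2]
    rw [h1, mul_div_cancel_left₀ _ hn', sub_self]

theorem lp_neg (ξ : E3) (v : C3) : lp (-ξ) v = lp ξ v := by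
  funext k
  unfold Pool.Agent.Run7.h148.AX.lp dt
  simp only [PiLp.neg_apply, norm_neg, Complex.ofReal_neg, Fin.sum_univ_three]
  ring

theorem lp_conj (ξ : E3) (v : C3) (k : Fin 3) :
    lp ξ (fun j => (starRingEnd ℂ) (v j)) k = (starRingEnd ℂ) (lp ξ v k) := by
  unfold Pool.Agent.Run7.h148.AX.lp dt
  simp only [map_sub, map_div₀, map_mul, Complex.conj_ofReal, map_sum]

theorem norm_rt (θ : ℝ) (ξ : E3) : ‖rt θ ξ‖ ^ 2 = ‖ξ‖ ^ 2 := by
  rw [norm_sq_eq, norm_sq_eq]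
  unfold rt
  simp
  nlinarith [Real.sin_sq_add_cos_sq θ]

theorem dt_rt (θ : ℝ) (ξ : E3) (v : C3) : dt (rt θ ξ) (rc θ v) = dt ξ v := by
  unfold dt rt rc
  simp only [Fin.sum_univ_three]
  simp
  have h : (Complex.cos (θ : ℂ)) ^ 2 = 1 - Complex.sin (θ : ℂ) ^ 2 := by
    have := Complex.sin_sq_add_cos_sq (θ : ℂ)
    linear_combination this
  ring_nf
  rw [h]
  ring

theorem lp_rt (θ : ℝ) (ξ : E3) (v : C3) : lp (rt θ ξ) (rc θ v) = rc θ (lp ξ v) := by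
  funext k
  unfold Pool.Agent.Run7.h148.AX.lp
  rw [dt_rt, norm_rt]
  fin_cases k
  · simp [rt, rc]; ring
  · simp [rt, rc]; ring
  · simp [rt, rc]

theorem measurable_lp {f : E3 → C3} (hf : Measurable f) : Measurable fun ξ => lp ξ (f ξ) := by
  rw [measurable_pi_iff]
  intro k
  have hc : ∀ j, Measurable fun ξ : E3 => (ξ j : ℂ) := fun j =>
    Complex.measurable_ofReal.comp (by fun_prop)
  have hk : ∀ j, Measurable fun ξ => f ξ j := fun j => (measurable_pi_apply j).comp hf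
  have hd : Measurable fun ξ => dt ξ (f ξ) := by
    unfold dt
    exact Finset.measurable_sum _ fun j _ => (hc j).mul (hk j)
  have hn : Measurable fun ξ : E3 => ((‖ξ‖ ^ 2 : ℝ) : ℂ) :=
    Complex.measurable_ofReal.comp (by fun_prop)
  exact (hk k).sub (((hc k).mul hd).div hn)

theorem t_IWI : S_IWI := by
  unfold S_IWI iw
  have h : IntegrableOn (fun ξ : E3 => ‖ξ‖⁻¹) (Metric.ball 0 1) := by
    refine integrableOn_ball_of_norm_le_rpow (α := 1) (C := 1) ?_ ?_ ?_ ?_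
    · rw [finrank_euclideanSpace_fin]; norm_num
    · rw [finrank_euclideanSpace_fin]; norm_num
    · refine Eventually.of_forall fun x => ?_
      rw [Real.rpow_neg_one, one_mul, norm_inv, norm_norm]
    · exact (by fun_prop : Measurable fun ξ : E3 => ‖ξ‖⁻¹).aestronglyMeasurable
  exact h.lintegral_lt_top

end Pool.Agent.Run7.h950.AX
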