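import Pool.Agent.Run7.h950.AX.GRD

/-!
# Project AX, piece PAR: the pairing with the mean field
-/

set_option autoImplicit false

open MeasureTheory Set Filter Topology
open scoped ENNReal ContDiff FourierTransform

namespace Pool.Agent.Run7.h950.AX

open Pool.Agent.Run7.h148.AX

theorem fourier_mul {f g : E3 → ℂ} (hf : Integrable f) (hg : Integrable g) :
    ∫ ξ, 𝓕 f ξ * g ξ = ∫ x, f x * 𝓕 g x := by
  simpa using! (VectorFourier.integral_fourierIntegral_smul_eq_flip (L := innerₗ E3)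
      Real.continuous_fourierChar continuous_inner hf hg)

theorem fourier_neg (g : E3 → ℂ) (ξ : E3) : 𝓕 (fun x => g (-x)) ξ = 𝓕 g (-ξ) := by
  change 𝓕 (g ∘ LinearIsometryEquiv.neg ℝ) ξ = 𝓕 g (LinearIsometryEquiv.neg ℝ ξ)
  exact Real.fourier_comp_linearIsometry _ _ _

theorem fourierInv_mul {a g : E3 → ℂ} (ha : Integrable a) (hg : Integrable g) :
    ∫ x, 𝓕⁻ a x * g x = ∫ ξ, a ξ * 𝓕 g (-ξ) := by
  have h1 : ∫ x, 𝓕⁻ a x * g x = ∫ x, 𝓕 a x * g (-x) := by
    rw [← integral_neg_eq_self (fun x => 𝓕⁻ a x * g x)]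
    apply integral_congr_ae
    refine Eventually.of_forall fun x => ?_
    show 𝓕⁻ a (-x) * g (-x) = 𝓕 a x * g (-x)
    rw [Real.fourierInv_eq_fourier_neg, neg_neg]
  rw [h1, fourier_mul ha hg.comp_neg]
  apply integral_congr_ae
  refine Eventually.of_forall fun x => ?_
  show a x * 𝓕 (fun x => g (-x)) x = a x * 𝓕 g (-x)
  rw [fourier_neg]

theorem fourier_cont {g : E3 → ℂ} (hg : Integrable g) : Continuous (𝓕 g) :=
  VectorFourier.fourierIntegral_continuous Real.continuous_fourierChar continuous_inner hg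

theorem fourier_bdd (g : E3 → ℂ) (ξ : E3) : ‖𝓕 g ξ‖ ≤ ∫ v, ‖g v‖ :=
  VectorFourier.norm_fourierIntegral_le_integral_norm _ _ _ g ξ

theorem int_mul_fourier {a g : E3 → ℂ} (ha : Integrable a) (hg : Integrable g) :
    Integrable fun ξ => a ξ * 𝓕 g (-ξ) :=
  ha.mul_bdd ((fourier_cont hg).comp continuous_neg).aestronglyMeasurable
    (Eventually.of_forall fun ξ => fourier_bdd g (-ξ))

theorem int_fourierInv_mul {a g : E3 → ℂ} (ha : Integrable a) (hg : Integrable g) :
    Integrable fun x => 𝓕⁻ a x * g x := by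
  have h : (fun x => 𝓕⁻ a x * g x) = fun x => 𝓕 a (-x) * g x := by
    funext x
    rw [Real.fourierInv_eq_fourier_neg]
  rw [h]
  exact hg.bdd_mul ((fourier_cont ha).comp continuous_neg).aestronglyMeasurable
    (Eventually.of_forall fun ξ => fourier_bdd a (-ξ))

theorem lp_symm (ξ : E3) (w u : C3) : ∑ k, Pool.Agent.Run7.h148.AX.lp ξ w k * u k =
    ∑ k, w k * Pool.Agent.Run7.h148.AX.lp ξ u k := by
  unfold Pool.Agent.Run7.h148.AX.lp dt
  simp only [Fin.sum_univ_three]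
  ring

theorem moment_one {a : E3 → ℂ} (hm : Measurable a)
    (h : ∀ k : ℕ, (∫⁻ ξ, wk k ξ * ‖a ξ‖ₑ) < ⊤) (j : Fin 3) :
    Integrable fun ξ : E3 => 2 * Real.pi * Complex.I * (ξ j : ℂ) * a ξ := by
  have hc : Measurable fun ξ : E3 => (ξ j : ℂ) := Complex.measurable_ofReal.comp (by fun_prop)
  have h0 : Integrable fun ξ : E3 => (ξ j : ℂ) * a ξ := by
    refine ⟨(hc.mul hm).aestronglyMeasurable, ?_⟩
    refine lt_of_le_of_lt ?_ (h 1)
    apply lintegral_mono
    intro ξ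
    show ‖(ξ j : ℂ) * a ξ‖ₑ ≤ wk 1 ξ * ‖a ξ‖ₑ
    rw [enorm_mul]
    gcongr
    unfold wk
    rw [← ofReal_norm]
    apply ENNReal.ofReal_le_ofReal
    rw [Complex.norm_real, Real.norm_eq_abs, pow_one]
    linarith [coord_le ξ j]
  have h1 := h0.const_mul (2 * Real.pi * Complex.I)
  refine h1.congr (Eventually.of_forall fun ξ => ?_)
  show 2 * Real.pi * Complex.I * ((ξ j : ℂ) * a ξ) = _
  ring

theorem t_PAR : S_FTF → S_FI1 → S_FI3 → S_CNV → S_VVP → S_PAR := by
  intro hFTF hFI1 hFI3 hCNV hVVP ν A φ hν hA hφ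
  obtain ⟨a1, a2, a3, -, -, a6, -⟩ := hFTF.1 A hA.1 hA.2.1
  obtain ⟨p1, p2, p3, -, -, p6, -⟩ := hFTF.1 φ hφ.1 hφ.2
  have a2' : ∀ k : ℕ, (∫⁻ ξ, wk k ξ * ‖fth A ξ‖ₑ) < ⊤ := fun k => by
    obtain ⟨M, hM, -⟩ := a2 k
    exact hM.trans_lt ENNReal.coe_lt_top
  have p2' : ∀ k : ℕ, (∫⁻ ξ, wk k ξ * ‖fth φ ξ‖ₑ) < ⊤ := fun k => by
    obtain ⟨M, hM, -⟩ := p2 k
    exact hM.trans_lt ENNReal.coe_lt_top
  obtain ⟨v1, v2, -, v4, -, -, v7⟩ := hVVP ν A hν hA
  have v2' : ∀ k : ℕ, (∫⁻ ξ, wk k ξ * ‖Vh ν A ξ‖ₑ) < ⊤ := fun k => by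
    obtain ⟨M, hM, -⟩ := v2 k
    exact hM.trans_lt ENNReal.coe_lt_top
  -- integrable components
  have iA : ∀ k, Integrable fun x => ((A x k : ℝ) : ℂ) := fun k =>
    Continuous.integrable_of_hasCompactSupport
      (Complex.continuous_ofReal.comp (by have := hA.1.continuous; fun_prop))
      (hA.2.1.comp_left (g := fun y : E3 => ((y k : ℝ) : ℂ)) (by simp))
  have iφ : ∀ k, Integrable fun x => ((φ x k : ℝ) : ℂ) := fun k =>
    Continuous.integrable_of_hasCompactSupport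
      (Complex.continuous_ofReal.comp (by have := hφ.1.continuous; fun_prop))
      (hφ.2.comp_left (g := fun y : E3 => ((y k : ℝ) : ℂ)) (by simp))
  have iAA : ∀ j k, Integrable fun x => ((A x j * A x k : ℝ) : ℂ) := fun j k =>
    Continuous.integrable_of_hasCompactSupport
      (Complex.continuous_ofReal.comp (by have := hA.1.continuous; fun_prop))
      (hA.2.1.comp_left (g := fun y : E3 => ((y j * y k : ℝ) : ℂ)) (by simp))
  have iα : ∀ k, Integrable fun ξ => fth A ξ k := fun k =>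
    integrable_of_moments ((measurable_pi_apply k).comp a1) (comp_moments a2' k)
  have iV : ∀ k, Integrable fun ξ => Vh ν A ξ k := fun k =>
    integrable_of_moments ((measurable_pi_apply k).comp v1) (comp_moments v2' k)
  -- the Leray projection of the test field
  set Φ : E3 → C3 := fun ξ => Pool.Agent.Run7.h148.AX.lp ξ (fth φ ξ) with hΦ
  have mΦ : Measurable Φ := measurable_lp p1
  have nΦ : ∀ k : ℕ, (∫⁻ ξ, wk k ξ * ‖Φ ξ‖ₑ) < ⊤ := lp_moments p2'
  obtain ⟨g1, -, -, g4⟩ := hFI3 Φ mΦ nΦ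
  have g1 := g1 (herm_lp p3)
  have iD : ∀ j k, Integrable fun ξ : E3 => 2 * Real.pi * Complex.I * (ξ j : ℂ) * Φ ξ k :=
    fun j k => moment_one ((measurable_pi_apply k).comp mΦ) (comp_moments nΦ k) j
  have hpd : ∀ j k x, ((pd j (fun y => LP φ y k) x : ℝ) : ℂ) =
      𝓕⁻ (fun ξ : E3 => 2 * Real.pi * Complex.I * (ξ j : ℂ) * Φ ξ k) x := by
    intro j k x
    obtain ⟨f1, f2⟩ := hFI1.1 (fun ξ => Φ ξ k) ((measurable_pi_apply k).comp mΦ)
      (comp_moments nΦ k)
    rw [← f2 j x]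
    have e1 : 𝓕⁻ (fun ξ => Φ ξ k) = fun y => ((LP φ y k : ℝ) : ℂ) :=
      funext fun y => (g1 y k).symm
    have hd : DifferentiableAt ℝ (fun y => LP φ y k) x := by
      have h1 : ContDiff ℝ ∞ (LP φ) := g4
      have h2 : Differentiable ℝ (LP φ) := h1.differentiable (by simp)
      exact ((EuclideanSpace.proj k : E3 →L[ℝ] ℝ).differentiable.comp h2) x
    rw [e1]
    have h3 := (Complex.ofRealCLM.hasFDerivAt (x := LP φ x k)).comp x hd.hasFDerivAt
    have h4 : fderiv ℝ (fun y => ((LP φ y k : ℝ) : ℂ)) x =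
        Complex.ofRealCLM.comp (fderiv ℝ (fun y => LP φ y k) x) := h3.fderiv
    rw [h4]
    rfl
  -- products
  set T : Fin 3 → Fin 3 → E3 → ℂ := fun j k => 𝓕 (fun x => ((A x j * A x k : ℝ) : ℂ)) with hT
  have hTc : ∀ j k ξ, T j k ξ = ∫ η, fth A η k * fth A (ξ - η) j := by
    intro j k ξ
    have h1 := hCNV (fun ξ => fth A ξ k) (fun x => ((A x j : ℝ) : ℂ)) (iα k) (iA j) ξ
    have h2 : (fun x => 𝓕⁻ (fun ξ => fth A ξ k) x * ((A x j : ℝ) : ℂ)) =
        fun x => ((A x j * A x k : ℝ) : ℂ) := by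
      funext x
      rw [a6 x k]
      push_cast
      ring
    rw [h2] at h1
    exact h1
  obtain ⟨M, -, hM⟩ := a2 0
  have hbd : ∀ ξ j, ‖fth A ξ j‖ ≤ M := by
    intro ξ j
    have h1 := hM ξ
    have e : wk 0 ξ = 1 := by unfold wk; simp
    rw [e, one_mul] at h1
    have h2 : ‖fth A ξ‖ ≤ M := by
      rw [← ofReal_norm, ← ENNReal.ofReal_coe_nnreal] at h1
      exact (ENNReal.ofReal_le_ofReal_iff M.2).1 h1
    exact (norm_le_pi_norm _ j).trans h2
  have iprod : ∀ j k ξ, Integrable fun η => fth A η k * fth A (ξ - η) j := by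
    intro j k ξ
    refine (iα k).mul_bdd (c := M) ?_ (Eventually.of_forall fun η => hbd _ j)
    exact (((measurable_pi_apply j).comp a1).comp (measurable_const.sub measurable_id)).aestronglyMeasurable
  -- the nonlinearity
  set W : E3 → C3 := fun ξ k => ∑ j, (ξ j : ℂ) * T j k ξ with hW
  have hVh : ∀ ξ, Vh ν A ξ = (2 * Real.pi * Complex.I / (4 * ν) : ℂ) •
      Pool.Agent.Run7.h148.AX.lp ξ (W ξ) := by
    intro ξ
    have h1 : (∫ η, dt ξ (fth A (ξ - η)) • fth A η) = W ξ := by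
      funext k
      have h2 : ∀ i, Integrable fun η => (dt ξ (fth A (ξ - η)) • fth A η) i := by
        intro i
        have : (fun η => (dt ξ (fth A (ξ - η)) • fth A η) i) =
            fun η => ∑ j, (ξ j : ℂ) * (fth A η i * fth A (ξ - η) j) := by
          funext η
          unfold dt
          rw [Pi.smul_apply, smul_eq_mul, Finset.sum_mul]
          exact Finset.sum_congr rfl fun j _ => by ring
        rw [this]
        exact integrable_finset_sum _ fun j _ => (iprod j i ξ).const_mul _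
      rw [eval_integral h2 k]
      have : (fun η => (dt ξ (fth A (ξ - η)) • fth A η) k) =
          fun η => ∑ j, (ξ j : ℂ) * (fth A η k * fth A (ξ - η) j) := by
        funext η
        unfold dt
        rw [Pi.smul_apply, smul_eq_mul, Finset.sum_mul]
        exact Finset.sum_congr rfl fun j _ => by ring
      rw [this, integral_finset_sum _ fun j _ => (iprod j k ξ).const_mul _]
      show _ = ∑ j, (ξ j : ℂ) * T j k ξ
      apply Finset.sum_congr rfl
      intro j _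
      rw [hTc j k ξ]
      exact integral_const_mul _ _
    unfold Vh nl
    rw [h1]
    funext k
    simp only [Pi.smul_apply, smul_eq_mul, Complex.real_smul]
    push_cast
    have hν' : (ν : ℂ) ≠ 0 := by exact_mod_cast hν.ne'
    field_simp
  -- the left side
  set S : E3 → ℂ := fun ξ => ∑ j, ∑ k, (ξ j : ℂ) * T j k ξ * Φ (-ξ) k with hS
  have hleft : ((pair (VV ν A) φ : ℝ) : ℂ) = (2 * Real.pi * Complex.I / (4 * ν) : ℂ) * ∫ ξ, S ξ := by
    unfold pair
    rw [← integral_complex_ofReal]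
    have e1 : (fun x => ((∑ j, VV ν A x j * φ x j : ℝ) : ℂ)) =
        fun x => ∑ j, 𝓕⁻ (fun ξ => Vh ν A ξ j) x * ((φ x j : ℝ) : ℂ) := by
      funext x
      push_cast
      exact Finset.sum_congr rfl fun j _ => by rw [v7 x j]
    rw [e1, integral_finset_sum _ fun j _ => int_fourierInv_mul (iV j) (iφ j)]
    have e2 : ∀ j, ∫ x, 𝓕⁻ (fun ξ => Vh ν A ξ j) x * ((φ x j : ℝ) : ℂ) =
        ∫ ξ, Vh ν A ξ j * fth φ (-ξ) j := fun j => fourierInv_mul (iV j) (iφ j)
    simp_rw [e2]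
    have i3 : ∀ j ∈ (Finset.univ : Finset (Fin 3)),
        Integrable fun ξ => Vh ν A ξ j * fth φ (-ξ) j :=
      fun j _ => int_mul_fourier (iV j) (iφ j)
    rw [← integral_finset_sum _ i3]
    rw [← integral_const_mul]
    apply integral_congr_ae
    refine Eventually.of_forall fun ξ => ?_
    show ∑ j, Vh ν A ξ j * fth φ (-ξ) j = (2 * Real.pi * Complex.I / (4 * ν) : ℂ) * S ξ
    rw [hVh ξ]
    simp only [Pi.smul_apply, smul_eq_mul, mul_assoc]
    rw [← Finset.mul_sum, lp_symm, ← lp_neg ξ (fth φ (-ξ))]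
    rw [hS]
    simp only [hW, Finset.sum_mul]
    rw [Finset.sum_comm]
  have hright : ((qf A (LP φ) : ℝ) : ℂ) = -(2 * Real.pi * Complex.I) * ∫ ξ, S ξ := by
    unfold qf
    rw [← integral_complex_ofReal]
    have e1 : (fun x => ((∑ j, ∑ k, A x j * A x k * pd j (fun y => LP φ y k) x : ℝ) : ℂ)) =
        fun x => ∑ j, ∑ k, 𝓕⁻ (fun ξ : E3 => 2 * Real.pi * Complex.I * (ξ j : ℂ) * Φ ξ k) x *
          ((A x j * A x k : ℝ) : ℂ) := by
      funext x
      push_cast
      refine Finset.sum_congr rfl fun j _ => Finset.sum_congr rfl fun k _ => ?_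
      rw [hpd j k x]
      ring
    have i1 : ∀ j k, Integrable fun x =>
        𝓕⁻ (fun ξ : E3 => 2 * Real.pi * Complex.I * (ξ j : ℂ) * Φ ξ k) x *
          ((A x j * A x k : ℝ) : ℂ) := fun j k => int_fourierInv_mul (iD j k) (iAA j k)
    rw [e1, integral_finset_sum _ fun j _ => integrable_finset_sum _ fun k _ => i1 j k]
    simp_rw [integral_finset_sum _ fun k _ => i1 _ k]
    have e2 : ∀ j k, ∫ x, 𝓕⁻ (fun ξ : E3 => 2 * Real.pi * Complex.I * (ξ j : ℂ) * Φ ξ k) x *
          ((A x j * A x k : ℝ) : ℂ) =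
        ∫ ξ, (2 * Real.pi * Complex.I * (ξ j : ℂ) * Φ ξ k) * T j k (-ξ) := fun j k =>
      fourierInv_mul (iD j k) (iAA j k)
    simp_rw [e2]
    have i2 : ∀ j k, Integrable fun ξ : E3 =>
        (2 * Real.pi * Complex.I * (ξ j : ℂ) * Φ ξ k) * T j k (-ξ) := fun j k =>
      int_mul_fourier (iD j k) (iAA j k)
    have e3 : ∀ j, ∑ k, ∫ ξ : E3, (2 * Real.pi * Complex.I * (ξ j : ℂ) * Φ ξ k) * T j k (-ξ) =
        ∫ ξ : E3, ∑ k, (2 * Real.pi * Complex.I * (ξ j : ℂ) * Φ ξ k) * T j k (-ξ) := fun j =>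
      (integral_finset_sum _ fun k _ => i2 j k).symm
    simp_rw [e3]
    rw [← integral_finset_sum _ fun j _ => integrable_finset_sum _ fun k _ => i2 j k,
      ← integral_const_mul, ← integral_neg_eq_self]
    apply integral_congr_ae
    refine Eventually.of_forall fun ξ => ?_
    show ∑ j, ∑ k, (2 * Real.pi * Complex.I * ((-ξ) j : ℂ) * Φ (-ξ) k) * T j k (- -ξ) =
      -(2 * Real.pi * Complex.I) * ∑ j, ∑ k, (ξ j : ℂ) * T j k ξ * Φ (-ξ) k
    rw [Finset.mul_sum]
    refine Finset.sum_congr rfl fun j _ => ?_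
    rw [Finset.mul_sum]
    refine Finset.sum_congr rfl fun k _ => ?_
    rw [neg_neg, PiLp.neg_apply]
    push_cast
    ring
  have hfin : ((pair (VV ν A) φ : ℝ) : ℂ) = ((-(1 / (4 * ν)) * qf A (LP φ) : ℝ) : ℂ) := by
    rw [hleft]
    push_cast
    rw [hright]
    have hν' : (ν : ℂ) ≠ 0 := by exact_mod_cast hν.ne'
    field_simp
  exact_mod_cast hfin

end Pool.Agent.Run7.h950.AX
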